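import Pool.Agent.Q85.VL.Defs
import Pool.Agent.Q128.CC.Ana

/-!
# Project VL (helper12): analytic continuation along the surface of a cube
-/

set_option autoImplicit false
set_option linter.all false

open MeasureTheory Set Metric
open scoped ContDiff
open H459R3.NS Pool.Agent.W268.NS Pool.Agent.Q67.VD

namespace Pool.Agent.J4H42.VL

open Pool.Agent.Q85.CC Pool.Agent.Q85.CL Pool.Agent.Q85.VL Pool.Agent.Q128.CC

/-! ### Chains of points on the unit sphere -/

/-- the points of the unit sphere which are reached from `u` in `n` steps of length `< δ` -/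
def Rn (δ : ℝ) (u : V) : ℕ → Set V
  | 0 => {u}
  | n + 1 => {w | ‖w‖ = 1 ∧ ∃ q ∈ Rn δ u n, ‖w - q‖ < δ}

theorem Rn_norm {δ : ℝ} {u : V} (hu : ‖u‖ = 1) : ∀ n, ∀ w ∈ Rn δ u n, ‖w‖ = 1
  | 0, w, hw => by
    have : w = u := hw
    rw [this, hu]
  | n + 1, w, hw => hw.1

theorem Rn_succ {δ : ℝ} (hδ : 0 < δ) {u : V} (hu : ‖u‖ = 1) (n : ℕ) : Rn δ u n ⊆ Rn δ u (n + 1) :=
  fun w hw => ⟨Rn_norm hu n w hw, w, hw, by rw [sub_self, norm_zero]; exact hδ⟩

theorem Rn_mono {δ : ℝ} (hδ : 0 < δ) {u : V} (hu : ‖u‖ = 1) : Monotone (Rn δ u) :=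
  monotone_nat_of_le_succ fun n => Rn_succ hδ hu n

theorem exists_N {δ : ℝ} (hδ : 0 < δ) {u : V} (hu : ‖u‖ = 1) : ∃ N, ∀ w : V, ‖w‖ = 1 →
    w ∈ Rn δ u N := by
  obtain ⟨A, hA⟩ : ∃ A : Set V, A = ⋃ n, Rn δ u n := ⟨_, rfl⟩
  have hS : ∀ w : V, w ∈ sphere (0 : V) 1 ↔ ‖w‖ = 1 := fun w => by
    rw [mem_sphere, dist_zero_right]
  have hstep : ∀ w q : V, ‖w‖ = 1 → q ∈ A → ‖w - q‖ < δ → w ∈ A := by
    intro w q hw hq h
    rw [hA, mem_iUnion] at hq ⊢
    obtain ⟨n, hn⟩ := hq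
    exact ⟨n + 1, hw, q, hn, h⟩
  have hall : ∀ w : V, ‖w‖ = 1 → w ∈ A := by
    by_contra hcon
    push Not at hcon
    obtain ⟨w, hw, hwA⟩ := hcon
    have hpc : IsPreconnected (sphere (0 : V) 1) := by
      apply isPreconnected_sphere
      rw [rank_fin_fun]
      norm_num
    obtain ⟨y, hy, hy1, hy2⟩ := hpc (⋃ q ∈ A, ball q δ) (⋃ q ∈ {q : V | ‖q‖ = 1 ∧ q ∉ A}, ball q δ)
      (isOpen_biUnion fun _ _ => isOpen_ball) (isOpen_biUnion fun _ _ => isOpen_ball)
      (by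
        intro y hy
        by_cases hyA : y ∈ A
        · exact Or.inl (mem_biUnion hyA (mem_ball_self hδ))
        · exact Or.inr (mem_biUnion (show y ∈ {q : V | ‖q‖ = 1 ∧ q ∉ A} from ⟨(hS y).1 hy, hyA⟩)
            (mem_ball_self hδ)))
      ⟨u, (hS u).2 hu, mem_biUnion (by rw [hA, mem_iUnion]; exact ⟨0, rfl⟩) (mem_ball_self hδ)⟩
      ⟨w, (hS w).2 hw, mem_biUnion (show w ∈ {q : V | ‖q‖ = 1 ∧ q ∉ A} from ⟨hw, hwA⟩)
        (mem_ball_self hδ)⟩
    rw [mem_iUnion₂] at hy1 hy2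
    obtain ⟨q, hq, hyq⟩ := hy1
    obtain ⟨q', hq', hyq'⟩ := hy2
    rw [mem_ball, dist_eq_norm] at hyq hyq'
    have hyA := hstep y q ((hS y).1 hy) hq hyq
    exact hq'.2 (hstep q' y hq'.1 hyA (by rwa [norm_sub_rev]))
  have hc : IsCompact (sphere (0 : V) 1) := isCompact_sphere _ _
  obtain ⟨N, hN⟩ := hc.elim_directed_cover (fun n => ⋃ q ∈ Rn δ u n, ball q δ)
    (fun n => isOpen_biUnion fun _ _ => isOpen_ball)
    (by
      intro y hy
      have h1 := hall y ((hS y).1 hy)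
      rw [hA, mem_iUnion] at h1
      obtain ⟨n, hn⟩ := h1
      rw [mem_iUnion]
      exact ⟨n, mem_biUnion hn (mem_ball_self hδ)⟩)
    (by
      intro a b
      refine ⟨max a b, ?_, ?_⟩
      · exact biUnion_subset_biUnion_left (Rn_mono hδ hu (le_max_left a b))
      · exact biUnion_subset_biUnion_left (Rn_mono hδ hu (le_max_right a b)))
  refine ⟨N + 1, fun w hw => ⟨hw, ?_⟩⟩
  have h1 := hN ((hS w).2 hw)
  rw [mem_iUnion₂] at h1
  obtain ⟨q, hq, h⟩ := h1
  rw [mem_ball, dist_eq_norm] at h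
  exact ⟨q, hq, h⟩

/-! ### Propagation of smallness -/

/-- the vorticity is small in the ball with radius `h r / 8` -/
def Sm (v : V → V) (h r β : ℝ) (q : V) : Prop :=
  ∀ i j : Fin 3, Idx i j → ∀ y, ‖y - q‖ ≤ h * r / 8 → r ^ 2 * |cur i j v y| ≤ β

theorem len_le (u : V) : len u ≤ 2 * ‖u‖ := by
  unfold len
  refine Real.sqrt_le_iff.2 ⟨by positivity, ?_⟩
  have := dot_self_le u
  nlinarith [sq_nonneg ‖u‖]

theorem stepP (c h η ε : ℝ) (hc : 1 ≤ c) (hh : 0 < h) (hη : 0 < η) (hηh : η < h / 2)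
    (hε : 0 < ε) : ∃ β : ℝ, 0 < β ∧ ∀ (v : V → V) (p : V) (r : ℝ), SM v → 0 < r →
      Gd c (h * r) v p → (∀ i j : Fin 3, Idx i j → ∀ y, ‖y - p‖ ≤ η * r →
        r ^ 2 * |cur i j v y| ≤ β) → Sm v h r ε p := by
  obtain ⟨β, hβ, hcont⟩ := cont (c / h ^ 2) (c / h) η (h / 2) (by positivity)
    (by positivity) hη hηh ε hε
  refine ⟨min β ε, lt_min hβ hε, ?_⟩
  intro v p r hv hr hG hsm i j hij y hy
  have hf := cur_smooth hv i j
  by_cases hyp : y = p
  · refine (hsm i j hij y ?_).trans (min_le_right _ _)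
    rw [hyp, sub_self, norm_zero]
    positivity
  have hpos : 0 < (y - p) ⬝ᵥ (y - p) := by
    have h0 : 0 ≤ (y - p) ⬝ᵥ (y - p) := by
      rw [dot3]
      nlinarith [sq_nonneg ((y - p) 0), sq_nonneg ((y - p) 1), sq_nonneg ((y - p) 2)]
    refine lt_of_le_of_ne h0 fun h1 => hyp ?_
    rw [dot3] at h1
    have e0 : (y - p) 0 = 0 := by
      nlinarith [sq_nonneg ((y - p) 0), sq_nonneg ((y - p) 1), sq_nonneg ((y - p) 2)]
    have e1 : (y - p) 1 = 0 := by
      nlinarith [sq_nonneg ((y - p) 0), sq_nonneg ((y - p) 1), sq_nonneg ((y - p) 2)]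
    have e2 : (y - p) 2 = 0 := by
      nlinarith [sq_nonneg ((y - p) 0), sq_nonneg ((y - p) 1), sq_nonneg ((y - p) 2)]
    rw [← sub_eq_zero]
    funext k
    fin_cases k
    · exact e0
    · exact e1
    · exact e2
  obtain ⟨q, hq⟩ : ∃ q, q = len (y - p) := ⟨_, rfl⟩
  have hq0 : 0 < q := by rw [hq]; exact Real.sqrt_pos.2 hpos
  have hq2 : q ^ 2 = (y - p) ⬝ᵥ (y - p) := by rw [hq]; exact Real.sq_sqrt hpos.le
  obtain ⟨d, hd⟩ : ∃ d : V, d = q⁻¹ • (y - p) := ⟨_, rfl⟩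
  have hdd : d ⬝ᵥ d = 1 := by
    rw [hd, dotProduct_smul, smul_dotProduct, ← hq2, smul_eq_mul, smul_eq_mul]
    field_simp
  have hd1 : ‖d‖ ≤ 1 := unit_norm_le hdd
  have hqr : q ≤ h * r / 4 := by
    have := len_le (y - p)
    rw [← hq] at this
    linarith
  have hnorm : ∀ T : ℝ, 0 ≤ T → ‖p + (r * T) • d - p‖ ≤ r * T := by
    intro T hT
    rw [add_sub_cancel_left, norm_smul, Real.norm_eq_abs, abs_of_nonneg (by positivity)]
    calc r * T * ‖d‖ ≤ r * T * 1 := mul_le_mul_of_nonneg_left hd1 (by positivity)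
      _ = r * T := mul_one _
  have h1 := hcont (ch (cur i j v) p d r) (ch_chain hf _ _ r) (fun n T hT => ?_)
    (fun T hT => ?_) (q / r) ?_
  · unfold ch at h1
    have h2 : p + (r * (q / r)) • d = y := by
      rw [mul_div_cancel₀ _ hr.ne', hd, smul_smul, mul_inv_cancel₀ hq0.ne', one_smul,
        add_sub_cancel]
    rw [h2] at h1
    simp only [Function.iterate_zero, id_eq, zero_add] at h1
    rw [abs_mul, abs_of_pos (by positivity : (0 : ℝ) < r ^ 2)] at h1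
    exact h1
  · -- the bounds
    have h3 : p + (r * T) • d ∈ ball p (h * r) := by
      rw [mem_ball, dist_eq_norm]
      refine (hnorm T hT.1).trans_lt ?_
      have h4 : r * T ≤ r * (h / 2) := mul_le_mul_of_nonneg_left hT.2 hr.le
      have h5 : 0 < h * r := by positivity
      linarith
    have h4 := (dd_iter_sq d hdd n (cur i j v) hf _).trans (hG _ h3 n i j)
    have h5 : |(dd d)^[n] (cur i j v) (p + (r * T) • d)| ≤
        c ^ (n + 1) * n.factorial / (h * r) ^ (n + 2) :=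
      abs_le_of_sq_le_sq h4 (by positivity)
    unfold ch
    rw [abs_mul, abs_of_pos (by positivity : (0 : ℝ) < r ^ (n + 2))]
    refine (mul_le_mul_of_nonneg_left h5 (by positivity)).trans (le_of_eq ?_)
    rw [mul_pow, div_pow]
    field_simp
    ring
  · -- the inner part
    unfold ch
    simp only [Function.iterate_zero, id_eq, zero_add]
    rw [abs_mul, abs_of_pos (by positivity : (0 : ℝ) < r ^ 2)]
    refine (hsm i j hij _ ?_).trans (min_le_left _ _)
    refine (hnorm T hT.1).trans ?_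
    have h4 : r * T ≤ r * η := mul_le_mul_of_nonneg_left hT.2 hr.le
    linarith
  · constructor
    · positivity
    · rw [div_le_iff₀ hr]
      have h5 : 0 < h * r := by positivity
      linarith

theorem stepN (c h ε : ℝ) (hc : 1 ≤ c) (hh : 0 < h) (hε : 0 < ε) : ∃ β : ℝ, 0 < β ∧
    ∀ (v : V → V) (q q' : V) (r : ℝ), SM v → 0 < r → Gd c (h * r) v q' →
      ‖q' - q‖ ≤ h * r / 16 → Sm v h r β q → Sm v h r ε q' := by
  obtain ⟨β, hβ, h1⟩ := stepP c h (h / 16) ε hc hh (by positivity) (by linarith) hε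
  refine ⟨β, hβ, fun v q q' r hv hr hG hqq hS => h1 v q' r hv hr hG ?_⟩
  intro i j hij y hy
  refine hS i j hij y ?_
  have e : y - q = (y - q') + (q' - q) := by abel
  rw [e]
  refine (norm_add_le _ _).trans ?_
  linarith

theorem scale {x u w : V} {s r δ : ℝ} (hs : 0 < s) (hsr : s ≤ r / 32) (h : ‖w - u‖ < δ)
    (hr : 0 < r) : ‖(x + s • w) - (x + s • u)‖ ≤ δ * r / 16 := by
  have e : (x + s • w) - (x + s • u) = s • (w - u) := by rw [smul_sub]; abel
  rw [e, norm_smul, Real.norm_eq_abs, abs_of_pos hs]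
  have h0 := norm_nonneg (w - u)
  have h1 : s * ‖w - u‖ ≤ r / 32 * δ := mul_le_mul hsr h.le h0 (by positivity)
  have h2 : 0 < δ := lt_of_le_of_lt h0 h
  have h3 : 0 < r * δ := by positivity
  linarith

theorem on_s {x w : V} {s : ℝ} (hs : 0 < s) (h : ‖w‖ = 1) : ‖(x + s • w) - x‖ = s := by
  rw [add_sub_cancel_left, norm_smul, Real.norm_eq_abs, abs_of_pos hs, h, mul_one]

theorem fwd (c h : ℝ) (hc : 1 ≤ c) (hh : 0 < h) (n : ℕ) : ∀ ε : ℝ, 0 < ε → ∃ β : ℝ, 0 < β ∧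
    ∀ (v : V → V) (x : V) (r s : ℝ), SM v → 0 < r → 0 < s → s ≤ r / 32 →
      (∀ y, ‖y - x‖ = s → Gd c (h * r) v y) → ∀ u w : V, ‖u‖ = 1 → w ∈ Rn h u n →
      Sm v h r β (x + s • u) → Sm v h r ε (x + s • w) := by
  induction n with
  | zero =>
    intro ε hε
    refine ⟨ε, hε, fun v x r s hv hr hs hsr hG u w hu hw hS => ?_⟩
    have : w = u := hw
    rw [this]
    exact hS
  | succ n ih =>
    intro ε hε
    obtain ⟨β₁, hβ₁, h1⟩ := stepN c h ε hc hh hε
    obtain ⟨β, hβ, h2⟩ := ih β₁ hβ₁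
    refine ⟨β, hβ, fun v x r s hv hr hs hsr hG u w hu hw hS => ?_⟩
    obtain ⟨hw1, q, hq, hwq⟩ := hw
    have h3 := h2 v x r s hv hr hs hsr hG u q hu hq hS
    exact h1 v _ _ r hv hr (hG _ (on_s hs hw1)) (scale hs hsr hwq hr) h3

theorem bwd (c h : ℝ) (hc : 1 ≤ c) (hh : 0 < h) (n : ℕ) : ∀ ε : ℝ, 0 < ε → ∃ β : ℝ, 0 < β ∧
    ∀ (v : V → V) (x : V) (r s : ℝ), SM v → 0 < r → 0 < s → s ≤ r / 32 →
      (∀ y, ‖y - x‖ = s → Gd c (h * r) v y) → ∀ u w : V, ‖u‖ = 1 → w ∈ Rn h u n →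
      Sm v h r β (x + s • w) → Sm v h r ε (x + s • u) := by
  induction n with
  | zero =>
    intro ε hε
    refine ⟨ε, hε, fun v x r s hv hr hs hsr hG u w hu hw hS => ?_⟩
    have : w = u := hw
    rw [this] at hS
    exact hS
  | succ n ih =>
    intro ε hε
    obtain ⟨β₁, hβ₁, h1⟩ := ih ε hε
    obtain ⟨β, hβ, h2⟩ := stepN c h β₁ hc hh hβ₁
    refine ⟨β, hβ, fun v x r s hv hr hs hsr hG u w hu hw hS => ?_⟩
    obtain ⟨hw1, q, hq, hwq⟩ := hw
    have hq1 : ‖q‖ = 1 := Rn_norm hu n q hq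
    have h3 := h2 v _ _ r hv hr (hG _ (on_s hs hq1))
      (scale hs hsr (by rwa [norm_sub_rev] at hwq) hr) hS
    exact h1 v x r s hv hr hs hsr hG u q hu hq h3

/-- the start: the integral of the vorticity is small near a good point -/
theorem start (c h b β : ℝ) (hc : 1 ≤ c) (hh : 0 < h) (hb : 0 < b) (hβ : 0 < β) :
    ∃ τ : ℝ, 0 < τ ∧ ∀ (v : V → V) (z : V) (r : ℝ), SM v → 0 < r →
      Gd c (h * r) v z → ∫ y in closedBall z (b * r), om v y ≤ τ * r →
      ∀ i j : Fin 3, Idx i j → ∀ y, ‖y - z‖ ≤ min (b / 4) (h / 8) * r →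
        r ^ 2 * |cur i j v y| ≤ β := by
  obtain ⟨δ, hδ⟩ : ∃ δ : ℝ, δ = min (b / 2) (min (h / 4) (β * h ^ 3 / (6 * c ^ 2))) := ⟨_, rfl⟩
  have hd1 : δ ≤ b / 2 := by rw [hδ]; exact min_le_left _ _
  have hd2 : δ ≤ h / 4 := by
    rw [hδ]
    exact (min_le_right _ _).trans (min_le_left _ _)
  have hd3 : δ ≤ β * h ^ 3 / (6 * c ^ 2) := by
    rw [hδ]
    exact (min_le_right _ _).trans (min_le_right _ _)
  have hd0 : 0 < δ := by
    rw [hδ]
    refine lt_min (by positivity) (lt_min (by positivity) (by positivity))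
  refine ⟨2 * β * δ ^ 3, by positivity, ?_⟩
  intro v z r hv hr hG hint i j hij y hy
  by_contra hcon
  push Not at hcon
  have hhr : 0 < h * r := by positivity
  have hδr : δ * r ≤ h / 4 * r := mul_le_mul_of_nonneg_right hd2 hr.le
  have hηr1 : min (b / 4) (h / 8) * r ≤ b / 4 * r :=
    mul_le_mul_of_nonneg_right (min_le_left _ _) hr.le
  have hηr2 : min (b / 4) (h / 8) * r ≤ h / 8 * r :=
    mul_le_mul_of_nonneg_right (min_le_right _ _) hr.le
  have hyb : y ∈ ball z (h * r) := by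
    rw [mem_ball, dist_eq_norm]
    linarith
  have hE : ∀ q ∈ closedBall y (δ * r), β / (2 * r ^ 2) ≤ om v q := by
    intro q hq
    rw [mem_closedBall, dist_eq_norm] at hq
    have hqb : q ∈ ball z (h * r) := by
      rw [mem_ball, dist_eq_norm]
      have e : q - z = (q - y) + (y - z) := by abel
      rw [e]
      refine lt_of_le_of_lt (norm_add_le _ _) ?_
      linarith
    have h1 := cur_lip hv hc hhr hG hyb hqb i j
    have h2 : 3 * (c ^ 2 / (h * r) ^ 3) * ‖q - y‖ ≤ β / (2 * r ^ 2) := by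
      calc 3 * (c ^ 2 / (h * r) ^ 3) * ‖q - y‖ ≤ 3 * (c ^ 2 / (h * r) ^ 3) * (δ * r) :=
            mul_le_mul_of_nonneg_left hq (by positivity)
        _ = 3 * c ^ 2 / (h ^ 3 * r ^ 2) * δ := by
            field_simp
        _ ≤ 3 * c ^ 2 / (h ^ 3 * r ^ 2) * (β * h ^ 3 / (6 * c ^ 2)) :=
            mul_le_mul_of_nonneg_left hd3 (by positivity)
        _ = β / (2 * r ^ 2) := by
            field_simp
            ring
    have h3 : β / r ^ 2 < |cur i j v y| := by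
      rw [div_lt_iff₀ (by positivity)]
      linarith
    have h4 := abs_sub_abs_le_abs_sub (cur i j v y) (cur i j v q)
    rw [abs_sub_comm] at h4
    have h5 := cur_le_om v q hij
    have h6 : β / r ^ 2 = 2 * (β / (2 * r ^ 2)) := by
      field_simp
    linarith
  have hsub : closedBall y (δ * r) ⊆ closedBall z (b * r) := by
    apply closedBall_subset_closedBall'
    rw [dist_eq_norm]
    have := mul_le_mul_of_nonneg_right hd1 hr.le
    have h7 : 0 < b * r := by positivity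
    linarith
  have hcont := om_cont' hv
  have hInt : IntegrableOn (om v) (closedBall z (b * r)) :=
    hcont.continuousOn.integrableOn_compact (isCompact_closedBall _ _)
  have hEfin : volume (closedBall y (δ * r)) ≠ ⊤ := measure_closedBall_lt_top.ne
  have h1 : ∫ q in closedBall y (δ * r), om v q ≤ ∫ q in closedBall z (b * r), om v q :=
    setIntegral_mono_set hInt (Filter.Eventually.of_forall fun z => om_nonneg' v z)
      (Filter.Eventually.of_forall hsub)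
  have hvol : (volume (closedBall y (δ * r))).toReal = (2 * (δ * r)) ^ 3 := by
    rw [Real.volume_pi_closedBall y (by positivity), ENNReal.toReal_ofReal (by positivity)]
    simp
  have h2 : β / (2 * r ^ 2) * (2 * (δ * r)) ^ 3 ≤ ∫ q in closedBall y (δ * r), om v q := by
    have h3 : ∫ _ in closedBall y (δ * r), β / (2 * r ^ 2) ≤ ∫ q in closedBall y (δ * r), om v q :=
      setIntegral_mono_on (integrableOn_const hEfin) (hInt.mono_set hsub)
        isClosed_closedBall.measurableSet hE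
    rw [setIntegral_const, smul_eq_mul, Measure.real, hvol] at h3
    rw [mul_comm]
    exact h3
  have h4 : β / (2 * r ^ 2) * (2 * (δ * r)) ^ 3 = 2 * (2 * β * δ ^ 3 * r) := by
    field_simp
  rw [h4] at h2
  have h5 : 0 < 2 * β * δ ^ 3 * r := by positivity
  linarith

/-- **VL-AnaS.** -/
theorem anaS : StmAnaS := by
  intro c h ε b hc hh hh1 hε hb
  obtain ⟨u₀, hu₀⟩ : ∃ u₀ : V, ‖u₀‖ = 1 := ⟨fun _ => 1, by
    rw [pi_norm_const]
    exact norm_one⟩
  obtain ⟨N, hN⟩ := exists_N hh hu₀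
  obtain ⟨β₁, hβ₁, H1⟩ := fwd c h hc hh N (ε / 3) (by positivity)
  obtain ⟨β₂, hβ₂, H2⟩ := bwd c h hc hh N β₁ hβ₁
  -- the order of the choices: first `η`, then `β₃`, then `τ`
  obtain ⟨β₃, hβ₃, H3⟩ : ∃ β₃ : ℝ, 0 < β₃ ∧ ∀ (v : V → V) (p : V) (r : ℝ), SM v → 0 < r →
      Gd c (h * r) v p → (∀ i j : Fin 3, Idx i j → ∀ y, ‖y - p‖ ≤ min (b / 4) (h / 8) * r →
        r ^ 2 * |cur i j v y| ≤ β₃) → Sm v h r β₂ p :=
    stepP c h (min (b / 4) (h / 8)) β₂ hc hh (lt_min (by positivity) (by positivity))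
      (lt_of_le_of_lt (min_le_right _ _) (by linarith)) hβ₂
  obtain ⟨τ, hτ, H4⟩ := start c h b β₃ hc hh hb hβ₃
  refine ⟨τ, min (h / 8) (1 / 128), hτ, lt_min (by positivity) (by norm_num),
    (min_le_left _ _).trans (by linarith), ?_⟩
  intro v x z r s hv hr hs1 hs2 hG hz hint y hy
  have hs : 0 < s := lt_of_lt_of_le (by positivity) hs1
  have hGz := hG z hz
  have k1 := H3 v z r hv hr hGz (H4 v z r hv hr hGz hint)
  -- `z = x + s u`
  have hzu : ∀ q : V, ‖q - x‖ = s → ‖s⁻¹ • (q - x)‖ = 1 ∧ x + s • (s⁻¹ • (q - x)) = q := by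
    intro q hq
    constructor
    · rw [norm_smul, norm_inv, Real.norm_eq_abs, abs_of_pos hs, hq, inv_mul_cancel₀ hs.ne']
    · rw [smul_smul, mul_inv_cancel₀ hs.ne', one_smul, add_sub_cancel]
  obtain ⟨hz1, hz2⟩ := hzu z hz
  have k2 : Sm v h r β₁ (x + s • u₀) := by
    refine H2 v x r s hv hr hs hs2 hG u₀ (s⁻¹ • (z - x)) hu₀ (hN _ hz1) ?_
    rw [hz2]
    exact k1
  -- the nearest point of the surface
  have hw1 : min (h / 8) (1 / 128) * r ≤ h / 8 * r :=
    mul_le_mul_of_nonneg_right (min_le_left _ _) hr.le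
  have hw2 : min (h / 8) (1 / 128) * r ≤ 1 / 128 * r :=
    mul_le_mul_of_nonneg_right (min_le_right _ _) hr.le
  obtain ⟨t, ht⟩ : ∃ t, t = ‖y - x‖ := ⟨_, rfl⟩
  rw [← ht] at hy
  have hy' := abs_le.1 hy
  have ht0 : 0 < t := by linarith [hy'.1]
  obtain ⟨q, hq⟩ : ∃ q : V, q = x + (s / t) • (y - x) := ⟨_, rfl⟩
  have hqx : ‖q - x‖ = s := by
    rw [hq, add_sub_cancel_left, norm_smul, Real.norm_eq_abs, abs_of_pos (by positivity), ← ht,
      div_mul_cancel₀ _ ht0.ne']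
  have hyq : ‖y - q‖ ≤ h * r / 8 := by
    have e : y - q = (1 - s / t) • (y - x) := by
      rw [hq, sub_smul, one_smul]
      abel
    rw [e, norm_smul, ← ht, Real.norm_eq_abs]
    have e2 : |1 - s / t| * t = |t - s| := by
      have e3 : 1 - s / t = (t - s) / t := by field_simp
      rw [e3, abs_div, abs_of_pos ht0, div_mul_cancel₀ _ ht0.ne']
    rw [e2]
    linarith
  obtain ⟨hq1, hq2⟩ := hzu q hqx
  have k3 : Sm v h r (ε / 3) q := by
    have := H1 v x r s hv hr hs hs2 hG u₀ (s⁻¹ • (q - x)) hu₀ (hN _ hq1) k2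
    rwa [hq2] at this
  have hkey : ∀ i j : Fin 3, Idx i j → |cur i j v y| ≤ ε / (3 * r ^ 2) := by
    intro i j hij
    have h1 := k3 i j hij y hyq
    rw [le_div_iff₀ (by positivity)]
    linarith
  have h1 := om_le_sum v y (ε / (3 * r ^ 2)) (hkey 1 2 (Or.inl ⟨rfl, rfl⟩))
    (hkey 2 0 (Or.inr (Or.inl ⟨rfl, rfl⟩))) (hkey 0 1 (Or.inr (Or.inr ⟨rfl, rfl⟩)))
  refine h1.trans (le_of_eq ?_)
  field_simp

end Pool.Agent.J4H42.VL
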